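import Pool.Agent.K3h27.PP.Stm

/-! PP project (helper27), brick U2: all vertices outside a 6-set attached to the same two
vertices. -/

set_option autoImplicit false

namespace Pool.Agent.K3h91.PP

open Finset Pool.Agent.K3h27.PP

/-- every finset all of whose elements have property `Q` has at most `n` elements -/
def Bd {X : Type} (Q : X → Prop) (n : ℕ) : Prop := ∀ S : Finset X, (∀ x ∈ S, Q x) → S.card ≤ n

theorem Bd.step {X V : Type} {Q : X → Prop} {n a : ℕ} (f : X → V) (A : Finset V)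
    (hA : A.card ≤ a) (hf : ∀ x, Q x → f x ∈ A) (h : ∀ v ∈ A, Bd (fun x => Q x ∧ f x = v) n) :
    Bd Q (a * n) := by
  classical
  intro S hS
  have h1 : S.card ≤ n * A.card := by
    refine Finset.card_le_mul_card_image_of_maps_to (f := f) (fun x hx => hf x (hS x hx)) n ?_
    intro v hv
    refine h v hv _ ?_
    intro x hx
    rw [Finset.mem_filter] at hx
    exact ⟨hS x hx.1, hx.2⟩
  calc S.card ≤ n * A.card := h1
    _ ≤ n * a := Nat.mul_le_mul_left _ hA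
    _ = a * n := Nat.mul_comm _ _

theorem Bd.base {X : Type} {Q : X → Prop} (h : ∀ x y, Q x → Q y → x = y) : Bd Q 1 := by
  intro S hS
  exact Finset.card_le_one.mpr fun x hx y hy => h x y (hS x hx) (hS y hy)

theorem card_erase_le' {V : Type} [DecidableEq V] {A : Finset V} {v : V} {k : ℕ} (hv : v ∈ A)
    (h : A.card ≤ k + 1) : (A.erase v).card ≤ k := by
  rw [Finset.card_erase_of_mem hv]
  omega

/-- no vertex outside -/
theorem cnt0 {X V : Type} [DecidableEq V] (g1 g2 g3 g4 g5 g6 : X → V)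
    (hinj : ∀ x y, g1 x = g1 y → g2 x = g2 y → g3 x = g3 y → g4 x = g4 y → g5 x = g5 y →
      g6 x = g6 y → x = y)
    (C : Finset V) (hC : C.card ≤ 6) (S : Finset X)
    (h : ∀ x ∈ S, g1 x ∈ C ∧ g2 x ∈ C ∧ g3 x ∈ C ∧ g4 x ∈ C ∧ g5 x ∈ C ∧ g6 x ∈ C ∧
      [g1 x, g2 x, g3 x, g4 x, g5 x, g6 x].Nodup) :
    S.card ≤ 720 := by
  have key : Bd (fun x => g1 x ∈ C ∧ g2 x ∈ C ∧ g3 x ∈ C ∧ g4 x ∈ C ∧ g5 x ∈ C ∧ g6 x ∈ C ∧
      [g1 x, g2 x, g3 x, g4 x, g5 x, g6 x].Nodup) (6 * (5 * (4 * (3 * (2 * (1 * 1)))))) := by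
    refine Bd.step g1 C hC (fun x hx => hx.1) fun v1 hv1 => ?_
    refine Bd.step g2 (C.erase v1) (card_erase_le' hv1 hC) ?_ fun v2 hv2 => ?_
    · rintro x ⟨⟨h1, h2, h3, h4, h5, h6, hn⟩, rfl⟩
      simp only [List.nodup_cons, List.mem_cons, List.not_mem_nil, or_false, not_or] at hn
      simp only [mem_erase]; tauto
    have c2 := card_erase_le' hv1 hC
    refine Bd.step g3 ((C.erase v1).erase v2) (card_erase_le' hv2 c2) ?_ fun v3 hv3 => ?_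
    · rintro x ⟨⟨⟨h1, h2, h3, h4, h5, h6, hn⟩, rfl⟩, rfl⟩
      simp only [List.nodup_cons, List.mem_cons, List.not_mem_nil, or_false, not_or] at hn
      simp only [mem_erase]; tauto
    have c3 := card_erase_le' hv2 c2
    refine Bd.step g4 (((C.erase v1).erase v2).erase v3) (card_erase_le' hv3 c3) ?_
      fun v4 hv4 => ?_
    · rintro x ⟨⟨⟨⟨h1, h2, h3, h4, h5, h6, hn⟩, rfl⟩, rfl⟩, rfl⟩
      simp only [List.nodup_cons, List.mem_cons, List.not_mem_nil, or_false, not_or] at hn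
      simp only [mem_erase]; tauto
    have c4 := card_erase_le' hv3 c3
    refine Bd.step g5 ((((C.erase v1).erase v2).erase v3).erase v4) (card_erase_le' hv4 c4) ?_
      fun v5 hv5 => ?_
    · rintro x ⟨⟨⟨⟨⟨h1, h2, h3, h4, h5, h6, hn⟩, rfl⟩, rfl⟩, rfl⟩, rfl⟩
      simp only [List.nodup_cons, List.mem_cons, List.not_mem_nil, or_false, not_or] at hn
      simp only [mem_erase]; tauto
    have c5 := card_erase_le' hv4 c4
    refine Bd.step g6 (((((C.erase v1).erase v2).erase v3).erase v4).erase v5)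
      (card_erase_le' hv5 c5) ?_ fun v6 hv6 => ?_
    · rintro x ⟨⟨⟨⟨⟨⟨h1, h2, h3, h4, h5, h6, hn⟩, rfl⟩, rfl⟩, rfl⟩, rfl⟩, rfl⟩
      simp only [List.nodup_cons, List.mem_cons, List.not_mem_nil, or_false, not_or] at hn
      simp only [mem_erase]; tauto
    refine Bd.base ?_
    rintro x y ⟨⟨⟨⟨⟨⟨_, rfl⟩, rfl⟩, rfl⟩, rfl⟩, rfl⟩, rfl⟩ ⟨⟨⟨⟨⟨⟨_, e1⟩, e2⟩, e3⟩, e4⟩, e5⟩, e6⟩
    exact hinj x y e1.symm e2.symm e3.symm e4.symm e5.symm e6.symm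
  exact key S h

/-- one vertex outside, with one neighbour in the path -/
theorem cnt1 {X V : Type} [DecidableEq V] (g1 g2 g3 g4 g5 g6 : X → V)
    (hinj : ∀ x y, g1 x = g1 y → g2 x = g2 y → g3 x = g3 y → g4 x = g4 y → g5 x = g5 y →
      g6 x = g6 y → x = y)
    (R U C : Finset V) (m : ℕ) (hR : R.card ≤ m) (hU : U.card ≤ 2) (hC : C.card ≤ 6) (hUC : U ⊆ C)
    (S : Finset X)
    (h : ∀ x ∈ S, g1 x ∈ R ∧ g2 x ∈ U ∧ g3 x ∈ C ∧ g4 x ∈ C ∧ g5 x ∈ C ∧ g6 x ∈ C ∧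
      [g1 x, g2 x, g3 x, g4 x, g5 x, g6 x].Nodup) :
    S.card ≤ 240 * m := by
  have key : Bd (fun x => g1 x ∈ R ∧ g2 x ∈ U ∧ g3 x ∈ C ∧ g4 x ∈ C ∧ g5 x ∈ C ∧ g6 x ∈ C ∧
      [g1 x, g2 x, g3 x, g4 x, g5 x, g6 x].Nodup) (m * (2 * (5 * (4 * (3 * (2 * 1)))))) := by
    refine Bd.step g1 R hR (fun x hx => hx.1) fun v1 hv1 => ?_
    refine Bd.step g2 U hU (fun x hx => hx.1.2.1) fun v2 hv2 => ?_
    have hv2C := hUC hv2
    have c3 := card_erase_le' hv2C hC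
    refine Bd.step g3 (C.erase v2) c3 ?_ fun v3 hv3 => ?_
    · rintro x ⟨⟨⟨h1, h2, h3, h4, h5, h6, hn⟩, rfl⟩, rfl⟩
      simp only [List.nodup_cons, List.mem_cons, List.not_mem_nil, or_false, not_or] at hn
      simp only [mem_erase]; tauto
    have c4 := card_erase_le' hv3 c3
    refine Bd.step g4 ((C.erase v2).erase v3) c4 ?_ fun v4 hv4 => ?_
    · rintro x ⟨⟨⟨⟨h1, h2, h3, h4, h5, h6, hn⟩, rfl⟩, rfl⟩, rfl⟩
      simp only [List.nodup_cons, List.mem_cons, List.not_mem_nil, or_false, not_or] at hn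
      simp only [mem_erase]; tauto
    have c5 := card_erase_le' hv4 c4
    refine Bd.step g5 (((C.erase v2).erase v3).erase v4) c5 ?_ fun v5 hv5 => ?_
    · rintro x ⟨⟨⟨⟨⟨h1, h2, h3, h4, h5, h6, hn⟩, rfl⟩, rfl⟩, rfl⟩, rfl⟩
      simp only [List.nodup_cons, List.mem_cons, List.not_mem_nil, or_false, not_or] at hn
      simp only [mem_erase]; tauto
    have c6 := card_erase_le' hv5 c5
    refine Bd.step g6 ((((C.erase v2).erase v3).erase v4).erase v5) c6 ?_ fun v6 hv6 => ?_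
    · rintro x ⟨⟨⟨⟨⟨⟨h1, h2, h3, h4, h5, h6, hn⟩, rfl⟩, rfl⟩, rfl⟩, rfl⟩, rfl⟩
      simp only [List.nodup_cons, List.mem_cons, List.not_mem_nil, or_false, not_or] at hn
      simp only [mem_erase]; tauto
    refine Bd.base ?_
    rintro x y ⟨⟨⟨⟨⟨⟨_, rfl⟩, rfl⟩, rfl⟩, rfl⟩, rfl⟩, rfl⟩ ⟨⟨⟨⟨⟨⟨_, e1⟩, e2⟩, e3⟩, e4⟩, e5⟩, e6⟩
    exact hinj x y e1.symm e2.symm e3.symm e4.symm e5.symm e6.symm
  calc S.card ≤ m * (2 * (5 * (4 * (3 * (2 * 1))))) := key S h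
    _ = 240 * m := by ring

/-- one vertex outside, with two neighbours in the path -/
theorem cnt2 {X V : Type} [DecidableEq V] (g1 g2 g3 g4 g5 g6 : X → V)
    (hinj : ∀ x y, g1 x = g1 y → g2 x = g2 y → g3 x = g3 y → g4 x = g4 y → g5 x = g5 y →
      g6 x = g6 y → x = y)
    (R U C : Finset V) (m : ℕ) (hR : R.card ≤ m) (hU : U.card ≤ 2) (hC : C.card ≤ 6) (hUC : U ⊆ C)
    (S : Finset X)
    (h : ∀ x ∈ S, g1 x ∈ R ∧ g2 x ∈ U ∧ g3 x ∈ U ∧ g4 x ∈ C ∧ g5 x ∈ C ∧ g6 x ∈ C ∧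
      [g1 x, g2 x, g3 x, g4 x, g5 x, g6 x].Nodup) :
    S.card ≤ 48 * m := by
  have key : Bd (fun x => g1 x ∈ R ∧ g2 x ∈ U ∧ g3 x ∈ U ∧ g4 x ∈ C ∧ g5 x ∈ C ∧ g6 x ∈ C ∧
      [g1 x, g2 x, g3 x, g4 x, g5 x, g6 x].Nodup) (m * (2 * (1 * (4 * (3 * (2 * 1)))))) := by
    refine Bd.step g1 R hR (fun x hx => hx.1) fun v1 hv1 => ?_
    refine Bd.step g2 U hU (fun x hx => hx.1.2.1) fun v2 hv2 => ?_
    have hv2C := hUC hv2
    have c2 := card_erase_le' hv2C hC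
    have d2 := card_erase_le' hv2 hU
    refine Bd.step g3 (U.erase v2) d2 ?_ fun v3 hv3 => ?_
    · rintro x ⟨⟨⟨h1, h2, h3, h4, h5, h6, hn⟩, rfl⟩, rfl⟩
      simp only [List.nodup_cons, List.mem_cons, List.not_mem_nil, or_false, not_or] at hn
      simp only [mem_erase]; tauto
    have hv3C : v3 ∈ C.erase v2 := by
      rw [mem_erase] at hv3 ⊢
      exact ⟨hv3.1, hUC hv3.2⟩
    have c3 := card_erase_le' hv3C c2
    refine Bd.step g4 ((C.erase v2).erase v3) c3 ?_ fun v4 hv4 => ?_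
    · rintro x ⟨⟨⟨⟨h1, h2, h3, h4, h5, h6, hn⟩, rfl⟩, rfl⟩, rfl⟩
      simp only [List.nodup_cons, List.mem_cons, List.not_mem_nil, or_false, not_or] at hn
      simp only [mem_erase]; tauto
    have c5 := card_erase_le' hv4 c3
    refine Bd.step g5 (((C.erase v2).erase v3).erase v4) c5 ?_ fun v5 hv5 => ?_
    · rintro x ⟨⟨⟨⟨⟨h1, h2, h3, h4, h5, h6, hn⟩, rfl⟩, rfl⟩, rfl⟩, rfl⟩
      simp only [List.nodup_cons, List.mem_cons, List.not_mem_nil, or_false, not_or] at hn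
      simp only [mem_erase]; tauto
    have c6 := card_erase_le' hv5 c5
    refine Bd.step g6 ((((C.erase v2).erase v3).erase v4).erase v5) c6 ?_ fun v6 hv6 => ?_
    · rintro x ⟨⟨⟨⟨⟨⟨h1, h2, h3, h4, h5, h6, hn⟩, rfl⟩, rfl⟩, rfl⟩, rfl⟩, rfl⟩
      simp only [List.nodup_cons, List.mem_cons, List.not_mem_nil, or_false, not_or] at hn
      simp only [mem_erase]; tauto
    refine Bd.base ?_
    rintro x y ⟨⟨⟨⟨⟨⟨_, rfl⟩, rfl⟩, rfl⟩, rfl⟩, rfl⟩, rfl⟩ ⟨⟨⟨⟨⟨⟨_, e1⟩, e2⟩, e3⟩, e4⟩, e5⟩, e6⟩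
    exact hinj x y e1.symm e2.symm e3.symm e4.symm e5.symm e6.symm
  calc S.card ≤ m * (2 * (1 * (4 * (3 * (2 * 1))))) := key S h
    _ = 48 * m := by ring

/-- two vertices outside -/
theorem cnt3 {X V : Type} [DecidableEq V] (g1 g2 g3 g4 g5 g6 : X → V)
    (hinj : ∀ x y, g1 x = g1 y → g2 x = g2 y → g3 x = g3 y → g4 x = g4 y → g5 x = g5 y →
      g6 x = g6 y → x = y)
    (R U C : Finset V) (m : ℕ) (hR : R.card ≤ m) (hU : U.card ≤ 2) (hC : C.card ≤ 6) (hUC : U ⊆ C)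
    (S : Finset X)
    (h : ∀ x ∈ S, g1 x ∈ R ∧ g2 x ∈ R ∧ g3 x ∈ U ∧ g4 x ∈ U ∧ g5 x ∈ C ∧ g6 x ∈ C ∧
      [g1 x, g2 x, g3 x, g4 x, g5 x, g6 x].Nodup) :
    S.card ≤ 24 * m * (m - 1) := by
  have key : Bd (fun x => g1 x ∈ R ∧ g2 x ∈ R ∧ g3 x ∈ U ∧ g4 x ∈ U ∧ g5 x ∈ C ∧ g6 x ∈ C ∧
      [g1 x, g2 x, g3 x, g4 x, g5 x, g6 x].Nodup) (m * ((m - 1) * (2 * (1 * (4 * (3 * 1)))))) := by
    refine Bd.step g1 R hR (fun x hx => hx.1) fun v1 hv1 => ?_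
    have r2 : (R.erase v1).card ≤ m - 1 := by
      rw [Finset.card_erase_of_mem hv1]
      omega
    refine Bd.step g2 (R.erase v1) r2 ?_ fun v2 hv2 => ?_
    · rintro x ⟨⟨h1, h2, h3, h4, h5, h6, hn⟩, rfl⟩
      simp only [List.nodup_cons, List.mem_cons, List.not_mem_nil, or_false, not_or] at hn
      simp only [mem_erase]; tauto
    refine Bd.step g3 U hU (fun x hx => hx.1.1.2.2.1) fun v3 hv3 => ?_
    have hv3C := hUC hv3
    have c3 := card_erase_le' hv3C hC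
    have d3 := card_erase_le' hv3 hU
    refine Bd.step g4 (U.erase v3) d3 ?_ fun v4 hv4 => ?_
    · rintro x ⟨⟨⟨⟨h1, h2, h3, h4, h5, h6, hn⟩, rfl⟩, rfl⟩, rfl⟩
      simp only [List.nodup_cons, List.mem_cons, List.not_mem_nil, or_false, not_or] at hn
      simp only [mem_erase]; tauto
    have hv4C : v4 ∈ C.erase v3 := by
      rw [mem_erase] at hv4 ⊢
      exact ⟨hv4.1, hUC hv4.2⟩
    have c4 := card_erase_le' hv4C c3
    refine Bd.step g5 ((C.erase v3).erase v4) c4 ?_ fun v5 hv5 => ?_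
    · rintro x ⟨⟨⟨⟨⟨h1, h2, h3, h4, h5, h6, hn⟩, rfl⟩, rfl⟩, rfl⟩, rfl⟩
      simp only [List.nodup_cons, List.mem_cons, List.not_mem_nil, or_false, not_or] at hn
      simp only [mem_erase]; tauto
    have c5 := card_erase_le' hv5 c4
    refine Bd.step g6 (((C.erase v3).erase v4).erase v5) c5 ?_ fun v6 hv6 => ?_
    · rintro x ⟨⟨⟨⟨⟨⟨h1, h2, h3, h4, h5, h6, hn⟩, rfl⟩, rfl⟩, rfl⟩, rfl⟩, rfl⟩
      simp only [List.nodup_cons, List.mem_cons, List.not_mem_nil, or_false, not_or] at hn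
      simp only [mem_erase]; tauto
    refine Bd.base ?_
    rintro x y ⟨⟨⟨⟨⟨⟨_, rfl⟩, rfl⟩, rfl⟩, rfl⟩, rfl⟩, rfl⟩ ⟨⟨⟨⟨⟨⟨_, e1⟩, e2⟩, e3⟩, e4⟩, e5⟩, e6⟩
    exact hinj x y e1.symm e2.symm e3.symm e4.symm e5.symm e6.symm
  calc S.card ≤ m * ((m - 1) * (2 * (1 * (4 * (3 * 1))))) := key S h
    _ = 24 * m * (m - 1) := by ring

/-- classification of the positions outside `C` -/
theorem classify {V : Type} (C U : Finset V) (hUC : U ⊆ C) (hU : U.card ≤ 2) (a b c d e f : V)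
    (hn : [a, b, c, d, e, f].Nodup)
    (ha : a ∉ C → b ∈ U) (hb : b ∉ C → a ∈ U ∧ c ∈ U) (hc : c ∉ C → b ∈ U ∧ d ∈ U)
    (hd : d ∉ C → c ∈ U ∧ e ∈ U) (he : e ∉ C → d ∈ U ∧ f ∈ U) (hf : f ∉ C → e ∈ U) :
    (a ∈ C ∧ b ∈ C ∧ c ∈ C ∧ d ∈ C ∧ e ∈ C ∧ f ∈ C) ∨
    (a ∉ C ∧ b ∈ U ∧ c ∈ C ∧ d ∈ C ∧ e ∈ C ∧ f ∈ C) ∨
    (a ∈ C ∧ b ∈ C ∧ c ∈ C ∧ d ∈ C ∧ e ∈ U ∧ f ∉ C) ∨
    (b ∉ C ∧ a ∈ U ∧ c ∈ U ∧ d ∈ C ∧ e ∈ C ∧ f ∈ C) ∨
    (c ∉ C ∧ b ∈ U ∧ d ∈ U ∧ a ∈ C ∧ e ∈ C ∧ f ∈ C) ∨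
    (d ∉ C ∧ c ∈ U ∧ e ∈ U ∧ a ∈ C ∧ b ∈ C ∧ f ∈ C) ∨
    (e ∉ C ∧ d ∈ U ∧ f ∈ U ∧ a ∈ C ∧ b ∈ C ∧ c ∈ C) ∨
    (a ∉ C ∧ f ∉ C ∧ b ∈ U ∧ e ∈ U ∧ c ∈ C ∧ d ∈ C) ∨
    (a ∉ C ∧ c ∉ C ∧ b ∈ U ∧ d ∈ U ∧ e ∈ C ∧ f ∈ C) ∨
    (d ∉ C ∧ f ∉ C ∧ c ∈ U ∧ e ∈ U ∧ a ∈ C ∧ b ∈ C) := by
  have three : ∀ x y z : V, x ∈ U → y ∈ U → z ∈ U → x ≠ y → x ≠ z → y ≠ z → False := by
    intro x y z hx hy hz hxy hxz hyz
    have : 2 < U.card := Finset.two_lt_card.mpr ⟨x, hx, y, hy, z, hz, hxy, hxz, hyz⟩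
    omega
  have U1 : ∀ x, x ∈ U → x ∈ C := fun x hx => hUC hx
  simp only [List.nodup_cons, List.mem_cons, List.not_mem_nil, or_false, not_or] at hn
  obtain ⟨⟨ab, ac, ad, ae, af⟩, ⟨bc, bd, be, bf⟩, ⟨cd, ce, cf⟩, ⟨de, df⟩, ef, -⟩ := hn
  by_cases h1 : a ∈ C
  · by_cases h2 : b ∈ C
    · by_cases h3 : c ∈ C
      · by_cases h4 : d ∈ C
        · by_cases h5 : e ∈ C
          · by_cases h6 : f ∈ C
            · exact Or.inl ⟨h1, h2, h3, h4, h5, h6⟩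
            · exact Or.inr (Or.inr (Or.inl ⟨h1, h2, h3, h4, hf h6, h6⟩))
          · have q := he h5
            have h6 := U1 _ q.2
            exact Or.inr (Or.inr (Or.inr (Or.inr (Or.inr (Or.inr (Or.inl ⟨h5, q.1, q.2, h1, h2, h3⟩))))))
        · have q := hd h4
          have h5 := U1 _ q.2
          by_cases h6 : f ∈ C
          · exact Or.inr (Or.inr (Or.inr (Or.inr (Or.inr (Or.inl ⟨h4, q.1, q.2, h1, h2, h6⟩)))))
          · exact Or.inr (Or.inr (Or.inr (Or.inr (Or.inr (Or.inr (Or.inr (Or.inr (Or.inr ⟨h4, h6, q.1, q.2, h1, h2⟩))))))))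
      · have q := hc h3
        have h4 := U1 _ q.2
        by_cases h5 : e ∈ C
        · by_cases h6 : f ∈ C
          · exact Or.inr (Or.inr (Or.inr (Or.inr (Or.inl ⟨h3, q.1, q.2, h1, h5, h6⟩))))
          · have := hf h6
            exact (three b d e q.1 q.2 this bd be de).elim
        · have r := he h5
          exact (three b d f q.1 q.2 r.2 bd bf df).elim
    · have q := hb h2
      have h3 := U1 _ q.2
      by_cases h4 : d ∈ C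
      · by_cases h5 : e ∈ C
        · by_cases h6 : f ∈ C
          · exact Or.inr (Or.inr (Or.inr (Or.inl ⟨h2, q.1, q.2, h4, h5, h6⟩)))
          · have := hf h6
            exact (three a c e q.1 q.2 this ac ae ce).elim
        · have r := he h5
          exact (three a c d q.1 q.2 r.1 ac ad cd).elim
      · have r := hd h4
        exact (three a c e q.1 q.2 r.2 ac ae ce).elim
  · have q := ha h1
    have h2 := U1 _ q
    by_cases h3 : c ∈ C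
    · by_cases h4 : d ∈ C
      · by_cases h5 : e ∈ C
        · by_cases h6 : f ∈ C
          · exact Or.inr (Or.inl ⟨h1, q, h3, h4, h5, h6⟩)
          · exact Or.inr (Or.inr (Or.inr (Or.inr (Or.inr (Or.inr (Or.inr (Or.inl ⟨h1, h6, q, hf h6, h3, h4⟩)))))))
        · have r := he h5
          exact (three b d f q r.1 r.2 bd bf df).elim
      · have r := hd h4
        exact (three b c e q r.1 r.2 bc be ce).elim
    · have s := hc h3
      have h4 := U1 _ s.2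
      by_cases h5 : e ∈ C
      · by_cases h6 : f ∈ C
        · exact Or.inr (Or.inr (Or.inr (Or.inr (Or.inr (Or.inr (Or.inr (Or.inr (Or.inl ⟨h1, h3, q, s.2, h5, h6⟩))))))))
        · have := hf h6
          exact (three b d e s.1 s.2 this bd be de).elim
      · have r := he h5
        exact (three b d f s.1 s.2 r.2 bd bf df).elim

theorem t_U2 : S_U2 := by
  classical
  intro V G W C U hCW hC6 hUC hU2 hadj
  set m := W.card - 6 with hm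
  have hm1 : W.card - 7 = m - 1 := by omega
  rw [hm1]
  set R := W \ C with hRdef
  have hR : R.card ≤ m := by
    rw [hRdef, Finset.card_sdiff_of_subset hCW]
    omega
  have hC : C.card ≤ 6 := hC6.le
  set P := P6 G W with hP
  have memP : ∀ p ∈ P, (p.1 ∈ W ∧ p.2.1 ∈ W ∧ p.2.2.1 ∈ W ∧ p.2.2.2.1 ∈ W ∧ p.2.2.2.2.1 ∈ W ∧
      p.2.2.2.2.2 ∈ W) ∧
      [p.1, p.2.1, p.2.2.1, p.2.2.2.1, p.2.2.2.2.1, p.2.2.2.2.2].Nodup ∧
      G.Adj p.1 p.2.1 ∧ G.Adj p.2.1 p.2.2.1 ∧ G.Adj p.2.2.1 p.2.2.2.1 ∧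
      G.Adj p.2.2.2.1 p.2.2.2.2.1 ∧ G.Adj p.2.2.2.2.1 p.2.2.2.2.2 := by
    intro p hp
    rw [hP, P6, Finset.mem_filter] at hp
    simp only [Finset.mem_product] at hp
    exact hp
  let Q0 : V × V × V × V × V × V → Prop := fun p =>
    p.1 ∈ C ∧ p.2.1 ∈ C ∧ p.2.2.1 ∈ C ∧ p.2.2.2.1 ∈ C ∧ p.2.2.2.2.1 ∈ C ∧ p.2.2.2.2.2 ∈ C
  let Q1 : V × V × V × V × V × V → Prop := fun p =>
    p.1 ∉ C ∧ p.2.1 ∈ U ∧ p.2.2.1 ∈ C ∧ p.2.2.2.1 ∈ C ∧ p.2.2.2.2.1 ∈ C ∧ p.2.2.2.2.2 ∈ C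
  let Q2 : V × V × V × V × V × V → Prop := fun p =>
    p.1 ∈ C ∧ p.2.1 ∈ C ∧ p.2.2.1 ∈ C ∧ p.2.2.2.1 ∈ C ∧ p.2.2.2.2.1 ∈ U ∧ p.2.2.2.2.2 ∉ C
  let Q3 : V × V × V × V × V × V → Prop := fun p =>
    p.2.1 ∉ C ∧ p.1 ∈ U ∧ p.2.2.1 ∈ U ∧ p.2.2.2.1 ∈ C ∧ p.2.2.2.2.1 ∈ C ∧ p.2.2.2.2.2 ∈ C
  let Q4 : V × V × V × V × V × V → Prop := fun p =>
    p.2.2.1 ∉ C ∧ p.2.1 ∈ U ∧ p.2.2.2.1 ∈ U ∧ p.1 ∈ C ∧ p.2.2.2.2.1 ∈ C ∧ p.2.2.2.2.2 ∈ C
  let Q5 : V × V × V × V × V × V → Prop := fun p =>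
    p.2.2.2.1 ∉ C ∧ p.2.2.1 ∈ U ∧ p.2.2.2.2.1 ∈ U ∧ p.1 ∈ C ∧ p.2.1 ∈ C ∧ p.2.2.2.2.2 ∈ C
  let Q6 : V × V × V × V × V × V → Prop := fun p =>
    p.2.2.2.2.1 ∉ C ∧ p.2.2.2.1 ∈ U ∧ p.2.2.2.2.2 ∈ U ∧ p.1 ∈ C ∧ p.2.1 ∈ C ∧ p.2.2.1 ∈ C
  let Q7 : V × V × V × V × V × V → Prop := fun p =>
    p.1 ∉ C ∧ p.2.2.2.2.2 ∉ C ∧ p.2.1 ∈ U ∧ p.2.2.2.2.1 ∈ U ∧ p.2.2.1 ∈ C ∧ p.2.2.2.1 ∈ C
  let Q8 : V × V × V × V × V × V → Prop := fun p =>
    p.1 ∉ C ∧ p.2.2.1 ∉ C ∧ p.2.1 ∈ U ∧ p.2.2.2.1 ∈ U ∧ p.2.2.2.2.1 ∈ C ∧ p.2.2.2.2.2 ∈ C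
  let Q9 : V × V × V × V × V × V → Prop := fun p =>
    p.2.2.2.1 ∉ C ∧ p.2.2.2.2.2 ∉ C ∧ p.2.2.1 ∈ U ∧ p.2.2.2.2.1 ∈ U ∧ p.1 ∈ C ∧ p.2.1 ∈ C
  have hcov : P ⊆ P.filter Q0 ∪ (P.filter Q1 ∪ (P.filter Q2 ∪ (P.filter Q3 ∪ (P.filter Q4 ∪
      (P.filter Q5 ∪ (P.filter Q6 ∪ (P.filter Q7 ∪ (P.filter Q8 ∪ P.filter Q9)))))))) := by
    intro p hp
    obtain ⟨⟨w1, w2, w3, w4, w5, w6⟩, hn, a1, a2, a3, a4, a5⟩ := memP p hp
    have := classify C U hUC hU2 p.1 p.2.1 p.2.2.1 p.2.2.2.1 p.2.2.2.2.1 p.2.2.2.2.2 hn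
      (fun h => hadj _ w1 h _ w2 a1)
      (fun h => ⟨hadj _ w2 h _ w1 a1.symm, hadj _ w2 h _ w3 a2⟩)
      (fun h => ⟨hadj _ w3 h _ w2 a2.symm, hadj _ w3 h _ w4 a3⟩)
      (fun h => ⟨hadj _ w4 h _ w3 a3.symm, hadj _ w4 h _ w5 a4⟩)
      (fun h => ⟨hadj _ w5 h _ w4 a4.symm, hadj _ w5 h _ w6 a5⟩)
      (fun h => hadj _ w6 h _ w5 a5.symm)
    simp only [Finset.mem_union, Finset.mem_filter]
    rcases this with h | h | h | h | h | h | h | h | h | h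
    · exact Or.inl ⟨hp, h⟩
    · exact Or.inr (Or.inl ⟨hp, h⟩)
    · exact Or.inr (Or.inr (Or.inl ⟨hp, h⟩))
    · exact Or.inr (Or.inr (Or.inr (Or.inl ⟨hp, h⟩)))
    · exact Or.inr (Or.inr (Or.inr (Or.inr (Or.inl ⟨hp, h⟩))))
    · exact Or.inr (Or.inr (Or.inr (Or.inr (Or.inr (Or.inl ⟨hp, h⟩)))))
    · exact Or.inr (Or.inr (Or.inr (Or.inr (Or.inr (Or.inr (Or.inl ⟨hp, h⟩))))))
    · exact Or.inr (Or.inr (Or.inr (Or.inr (Or.inr (Or.inr (Or.inr (Or.inl ⟨hp, h⟩)))))))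
    · exact Or.inr (Or.inr (Or.inr (Or.inr (Or.inr (Or.inr (Or.inr (Or.inr (Or.inl
        ⟨hp, h⟩))))))))
    · exact Or.inr (Or.inr (Or.inr (Or.inr (Or.inr (Or.inr (Or.inr (Or.inr (Or.inr
        ⟨hp, h⟩))))))))
  have hRm : ∀ v, v ∈ W → v ∉ C → v ∈ R := fun v h1 h2 => Finset.mem_sdiff.mpr ⟨h1, h2⟩
  have e0 : (P.filter Q0).card ≤ 720 := by
    refine cnt0 (fun p : V × V × V × V × V × V => p.1) (fun p => p.2.1) (fun p => p.2.2.1)
      (fun p => p.2.2.2.1) (fun p => p.2.2.2.2.1) (fun p => p.2.2.2.2.2) ?_ C hC _ ?_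
    · rintro ⟨_, _, _, _, _, _⟩ ⟨_, _, _, _, _, _⟩; simp only; rintro rfl rfl rfl rfl rfl rfl; rfl
    · intro p hp
      obtain ⟨hp, h1, h2, h3, h4, h5, h6⟩ := Finset.mem_filter.mp hp
      exact ⟨h1, h2, h3, h4, h5, h6, (memP p hp).2.1⟩
  have e1 : (P.filter Q1).card ≤ 240 * m := by
    refine cnt1 (fun p : V × V × V × V × V × V => p.1) (fun p => p.2.1) (fun p => p.2.2.1)
      (fun p => p.2.2.2.1) (fun p => p.2.2.2.2.1) (fun p => p.2.2.2.2.2) ?_ R U C m hR hU2 hC hUC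
      _ ?_
    · rintro ⟨_, _, _, _, _, _⟩ ⟨_, _, _, _, _, _⟩; simp only; rintro rfl rfl rfl rfl rfl rfl; rfl
    · intro p hp
      obtain ⟨hp, h1, h2, h3, h4, h5, h6⟩ := Finset.mem_filter.mp hp
      obtain ⟨⟨w1, w2, w3, w4, w5, w6⟩, hn, -⟩ := memP p hp
      exact ⟨hRm _ w1 h1, h2, h3, h4, h5, h6, hn⟩
  have e2 : (P.filter Q2).card ≤ 240 * m := by
    refine cnt1 (fun p : V × V × V × V × V × V => p.2.2.2.2.2) (fun p => p.2.2.2.2.1)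
      (fun p => p.1) (fun p => p.2.1) (fun p => p.2.2.1)
      (fun p => p.2.2.2.1) ?_ R U C m hR hU2 hC hUC _ ?_
    · rintro ⟨_, _, _, _, _, _⟩ ⟨_, _, _, _, _, _⟩; simp only; rintro rfl rfl rfl rfl rfl rfl; rfl
    · intro p hp
      obtain ⟨hp, h1, h2, h3, h4, h5, h6⟩ := Finset.mem_filter.mp hp
      obtain ⟨⟨w1, w2, w3, w4, w5, w6⟩, hn, -⟩ := memP p hp
      refine ⟨hRm _ w6 h6, h5, h1, h2, h3, h4, ?_⟩
      simp only [List.nodup_cons, List.mem_cons, List.not_mem_nil, or_false, not_or] at hn ⊢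
      simp only [List.nodup_nil, not_false_eq_true, and_true] at hn ⊢
      grind
  have e3 : (P.filter Q3).card ≤ 48 * m := by
    refine cnt2 (fun p : V × V × V × V × V × V => p.2.1) (fun p => p.1)
      (fun p => p.2.2.1) (fun p => p.2.2.2.1) (fun p => p.2.2.2.2.1)
      (fun p => p.2.2.2.2.2) ?_ R U C m hR hU2 hC hUC _ ?_
    · rintro ⟨_, _, _, _, _, _⟩ ⟨_, _, _, _, _, _⟩; simp only; rintro rfl rfl rfl rfl rfl rfl; rfl
    · intro p hp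
      obtain ⟨hp, h1, h2, h3, h4, h5, h6⟩ := Finset.mem_filter.mp hp
      obtain ⟨⟨w1, w2, w3, w4, w5, w6⟩, hn, -⟩ := memP p hp
      refine ⟨hRm _ w2 h1, h2, h3, h4, h5, h6, ?_⟩
      simp only [List.nodup_cons, List.mem_cons, List.not_mem_nil, or_false, not_or] at hn ⊢
      simp only [List.nodup_nil, not_false_eq_true, and_true] at hn ⊢
      grind
  have e4 : (P.filter Q4).card ≤ 48 * m := by
    refine cnt2 (fun p : V × V × V × V × V × V => p.2.2.1) (fun p => p.2.1)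
      (fun p => p.2.2.2.1) (fun p => p.1) (fun p => p.2.2.2.2.1)
      (fun p => p.2.2.2.2.2) ?_ R U C m hR hU2 hC hUC _ ?_
    · rintro ⟨_, _, _, _, _, _⟩ ⟨_, _, _, _, _, _⟩; simp only; rintro rfl rfl rfl rfl rfl rfl; rfl
    · intro p hp
      obtain ⟨hp, h1, h2, h3, h4, h5, h6⟩ := Finset.mem_filter.mp hp
      obtain ⟨⟨w1, w2, w3, w4, w5, w6⟩, hn, -⟩ := memP p hp
      refine ⟨hRm _ w3 h1, h2, h3, h4, h5, h6, ?_⟩
      simp only [List.nodup_cons, List.mem_cons, List.not_mem_nil, or_false, not_or] at hn ⊢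
      simp only [List.nodup_nil, not_false_eq_true, and_true] at hn ⊢
      grind
  have e5 : (P.filter Q5).card ≤ 48 * m := by
    refine cnt2 (fun p : V × V × V × V × V × V => p.2.2.2.1) (fun p => p.2.2.1)
      (fun p => p.2.2.2.2.1) (fun p => p.1) (fun p => p.2.1)
      (fun p => p.2.2.2.2.2) ?_ R U C m hR hU2 hC hUC _ ?_
    · rintro ⟨_, _, _, _, _, _⟩ ⟨_, _, _, _, _, _⟩; simp only; rintro rfl rfl rfl rfl rfl rfl; rfl
    · intro p hp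
      obtain ⟨hp, h1, h2, h3, h4, h5, h6⟩ := Finset.mem_filter.mp hp
      obtain ⟨⟨w1, w2, w3, w4, w5, w6⟩, hn, -⟩ := memP p hp
      refine ⟨hRm _ w4 h1, h2, h3, h4, h5, h6, ?_⟩
      simp only [List.nodup_cons, List.mem_cons, List.not_mem_nil, or_false, not_or] at hn ⊢
      simp only [List.nodup_nil, not_false_eq_true, and_true] at hn ⊢
      grind
  have e6 : (P.filter Q6).card ≤ 48 * m := by
    refine cnt2 (fun p : V × V × V × V × V × V => p.2.2.2.2.1) (fun p => p.2.2.2.1)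
      (fun p => p.2.2.2.2.2) (fun p => p.1) (fun p => p.2.1)
      (fun p => p.2.2.1) ?_ R U C m hR hU2 hC hUC _ ?_
    · rintro ⟨_, _, _, _, _, _⟩ ⟨_, _, _, _, _, _⟩; simp only; rintro rfl rfl rfl rfl rfl rfl; rfl
    · intro p hp
      obtain ⟨hp, h1, h2, h3, h4, h5, h6⟩ := Finset.mem_filter.mp hp
      obtain ⟨⟨w1, w2, w3, w4, w5, w6⟩, hn, -⟩ := memP p hp
      refine ⟨hRm _ w5 h1, h2, h3, h4, h5, h6, ?_⟩
      simp only [List.nodup_cons, List.mem_cons, List.not_mem_nil, or_false, not_or] at hn ⊢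
      simp only [List.nodup_nil, not_false_eq_true, and_true] at hn ⊢
      grind
  have e7 : (P.filter Q7).card ≤ 24 * m * (m - 1) := by
    refine cnt3 (fun p : V × V × V × V × V × V => p.1) (fun p => p.2.2.2.2.2)
      (fun p => p.2.1) (fun p => p.2.2.2.2.1) (fun p => p.2.2.1)
      (fun p => p.2.2.2.1) ?_ R U C m hR hU2 hC hUC _ ?_
    · rintro ⟨_, _, _, _, _, _⟩ ⟨_, _, _, _, _, _⟩; simp only; rintro rfl rfl rfl rfl rfl rfl; rfl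
    · intro p hp
      obtain ⟨hp, h1, h2, h3, h4, h5, h6⟩ := Finset.mem_filter.mp hp
      obtain ⟨⟨w1, w2, w3, w4, w5, w6⟩, hn, -⟩ := memP p hp
      refine ⟨hRm _ w1 h1, hRm _ w6 h2, h3, h4, h5, h6, ?_⟩
      simp only [List.nodup_cons, List.mem_cons, List.not_mem_nil, or_false, not_or] at hn ⊢
      simp only [List.nodup_nil, not_false_eq_true, and_true] at hn ⊢
      grind
  have e8 : (P.filter Q8).card ≤ 24 * m * (m - 1) := by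
    refine cnt3 (fun p : V × V × V × V × V × V => p.1) (fun p => p.2.2.1)
      (fun p => p.2.1) (fun p => p.2.2.2.1) (fun p => p.2.2.2.2.1)
      (fun p => p.2.2.2.2.2) ?_ R U C m hR hU2 hC hUC _ ?_
    · rintro ⟨_, _, _, _, _, _⟩ ⟨_, _, _, _, _, _⟩; simp only; rintro rfl rfl rfl rfl rfl rfl; rfl
    · intro p hp
      obtain ⟨hp, h1, h2, h3, h4, h5, h6⟩ := Finset.mem_filter.mp hp
      obtain ⟨⟨w1, w2, w3, w4, w5, w6⟩, hn, -⟩ := memP p hp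
      refine ⟨hRm _ w1 h1, hRm _ w3 h2, h3, h4, h5, h6, ?_⟩
      simp only [List.nodup_cons, List.mem_cons, List.not_mem_nil, or_false, not_or] at hn ⊢
      simp only [List.nodup_nil, not_false_eq_true, and_true] at hn ⊢
      grind
  have e9 : (P.filter Q9).card ≤ 24 * m * (m - 1) := by
    refine cnt3 (fun p : V × V × V × V × V × V => p.2.2.2.1) (fun p => p.2.2.2.2.2)
      (fun p => p.2.2.1) (fun p => p.2.2.2.2.1) (fun p => p.1)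
      (fun p => p.2.1) ?_ R U C m hR hU2 hC hUC _ ?_
    · rintro ⟨_, _, _, _, _, _⟩ ⟨_, _, _, _, _, _⟩; simp only; rintro rfl rfl rfl rfl rfl rfl; rfl
    · intro p hp
      obtain ⟨hp, h1, h2, h3, h4, h5, h6⟩ := Finset.mem_filter.mp hp
      obtain ⟨⟨w1, w2, w3, w4, w5, w6⟩, hn, -⟩ := memP p hp
      refine ⟨hRm _ w4 h1, hRm _ w6 h2, h3, h4, h5, h6, ?_⟩
      simp only [List.nodup_cons, List.mem_cons, List.not_mem_nil, or_false, not_or] at hn ⊢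
      simp only [List.nodup_nil, not_false_eq_true, and_true] at hn ⊢
      grind
  have htot : P.card ≤ (P.filter Q0).card + ((P.filter Q1).card + ((P.filter Q2).card +
      ((P.filter Q3).card + ((P.filter Q4).card + ((P.filter Q5).card + ((P.filter Q6).card +
      ((P.filter Q7).card + ((P.filter Q8).card + (P.filter Q9).card)))))))) := by
    refine (Finset.card_le_card hcov).trans ?_
    refine (Finset.card_union_le _ _).trans (Nat.add_le_add_left ?_ _)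
    refine (Finset.card_union_le _ _).trans (Nat.add_le_add_left ?_ _)
    refine (Finset.card_union_le _ _).trans (Nat.add_le_add_left ?_ _)
    refine (Finset.card_union_le _ _).trans (Nat.add_le_add_left ?_ _)
    refine (Finset.card_union_le _ _).trans (Nat.add_le_add_left ?_ _)
    refine (Finset.card_union_le _ _).trans (Nat.add_le_add_left ?_ _)
    refine (Finset.card_union_le _ _).trans (Nat.add_le_add_left ?_ _)
    refine (Finset.card_union_le _ _).trans (Nat.add_le_add_left ?_ _)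
    exact Finset.card_union_le _ _
  calc P.card ≤ _ := htot
    _ ≤ 720 + (240 * m + (240 * m + (48 * m + (48 * m + (48 * m + (48 * m +
        (24 * m * (m - 1) + (24 * m * (m - 1) + 24 * m * (m - 1))))))))) := by gcongr
    _ = 720 + 672 * m + 72 * m * (m - 1) := by ring

end Pool.Agent.K3h91.PP
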